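import Pool.Agent.Lib.MP_dc5a1d_an.Main

/-! The Banach spaces in which WCGA(t) always converges, for every fixed weakness parameter. -/

set_option autoImplicit false

namespace Pool.Agent.Results.MP_dc5a1d_an.Characterization

open Pool.Agent.Lib.MP_dc5a1d_an

/-- Fix `t` in `(0,1]`. In a real Banach space `X` the weak Chebyshev greedy algorithm with
weakness parameter `t` converges for all dictionaries, all elements and all realizations if and
only if the norm of `X` is Gateaux smooth and the weak* and norm topologies coincide on the unit
sphere of the dual of `X`. -/
theorem result (X : Type*) [NormedAddCommGroup X] [NormedSpace ℝ X] [CompleteSpace X]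
    (t : ℝ) (ht : 0 < t) (ht1 : t ≤ 1) : Converges X t ↔ Smooth X ∧ DualKadecKlee X :=
  main_iff ht ht1

end Pool.Agent.Results.MP_dc5a1d_an.Characterization
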